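import Pool.Agent.Helper64.CT.Stmts

set_option autoImplicit false

namespace Pool.Agent.Helper64.CT

theorem st_L2 (h1 : ST_L2H) (h2 : ST_ALS) : ST_L2 := by
  intro V G s hpc hTF hCI hP hS a c y hac hA
  obtain ⟨hA', _, hAtt⟩ := h2 V G a c y hac hA
  have hca : c ∈ Far G a := Far.symm hac
  have k1 := h1 V G s hpc hTF hCI hP hS a c y hac hA
  have k2 := h1 V G s hpc hTF hCI hP hS c a y hca hA'
  constructor
  · rintro ⟨e1, e2⟩
    rcases k1 with ⟨g1, _⟩ | ⟨_, g2⟩ | ⟨g, _⟩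
    · exact e1 g1
    · exact e2 g2
    · exact e2 g
  · intro e1 e2
    rcases k1 with ⟨_, g2⟩ | ⟨g1, _⟩ | ⟨_, g3, g4, g5⟩
    · exact absurd e2 g2
    · exact absurd e1 g1
    · rcases k2 with ⟨_, f2⟩ | ⟨f1, _⟩ | ⟨_, _, f4, f5⟩
      · exact absurd e1 f2
      · exact absurd e2 f1
      · refine ⟨g3, g4, ?_, g5, ?_⟩
        · rw [f4, hAtt]
        · rw [← hAtt]
          exact f5

end Pool.Agent.Helper64.CT
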