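import Pool.Agent.Helper64.CT.Stmts

set_option autoImplicit false

namespace Pool.Agent.Helper64.CT

theorem st_L1 (h1 : ST_ALS) : ST_L1 := by
  intro V G s hTF hCI hS a c y a' hac hA hcaa hmix
  obtain ⟨hA', hiff, hAtt⟩ := h1 V G a c y hac hA
  obtain ⟨⟨n1, hn1, ha1⟩, n2, hn2, ha2⟩ := hmix
  have hca : c ∈ Far G a := Far.symm hac
  have han1 : G.Adj a n1 := hA.2.2 n1 hn1
  have han2 : G.Adj a n2 := hA.2.2 n2 hn2
  have hcn1 : G.Adj c n1 := hn1.1
  have hcn2 : G.Adj c n2 := hn2.1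
  have hne : a' ≠ a := by
    rintro rfl
    exact ha2 han2
  have hnadj : ¬ G.Adj a a' := fun h => hTF a a' n1 h ha1 han1
  have hfa : a' ∈ Far G a := ⟨hne, hnadj⟩
  have hfc : a' ∈ Far G c := hcaa.right
  by_cases hcase : Comp G a a' c
  · exfalso
    apply hCI
    refine ⟨n1, a, a', c, han1.symm, ha1.symm, hcn1.symm, hcaa, hcase, ?_⟩
    have hn2far : n2 ∈ Far G a' := by
      refine ⟨?_, ha2⟩
      rintro rfl
      exact hnadj han2
    exact (Comp.adj (Far.symm hfa) hn2far han2).step (Far.symm hfc) hcn2.symm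
  · have hm : ∃ m ∈ Att G a a', ¬ G.Adj c m := by
      by_contra hcon
      push Not at hcon
      have hal : Alpha G c a a' := ⟨hfa, fun h => hcase h.symm, hcon⟩
      exact (h1 V G c a a' hca hal).1.2.1 hcaa
    obtain ⟨m, hm1, hm2⟩ := hm
    have hn1a' : n1 ∈ Att G a a' := ⟨han1, a', Comp.refl hfa, ha1.symm⟩
    have hc1 : Conf G a a' y := by
      refine ⟨?_, ⟨a', Comp.refl hfa, ?_⟩, ?_⟩
      · intro h
        exact hA.2.1 (hcaa.trans ((hiff a').1 h.symm).symm)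
      · rw [hAtt]
        exact ⟨⟨n1, hn1, ha1⟩, n2, hn2, ha2⟩
      · obtain ⟨_, y1, hy1, hny1⟩ := id hn1
        refine ⟨y1, (hiff y1).2 hy1, ⟨n1, hn1a', hny1.symm⟩, m, hm1, ?_⟩
        intro hmy
        have hm3 : m ∈ Att G a y := ⟨hm1.1, y1, (hiff y1).2 hy1, hmy.symm⟩
        rw [hAtt] at hm3
        exact hm2 hm3.1
    have hc2 : Conf G a a' c := by
      refine ⟨hcase, ⟨a', Comp.refl hfa, ⟨n1, ⟨han1, c, Comp.refl hca, hcn1.symm⟩, ha1⟩, n2,
        ⟨han2, c, Comp.refl hca, hcn2.symm⟩, ha2⟩, c, Comp.refl hca, ⟨n1, hn1a', hcn1⟩, m, hm1,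
        hm2⟩
    have e1 := (hS a).2 a' y hc1
    have e2 := (hS a).2 a' c hc2
    revert e1 e2
    cases s a a' <;> cases s a y <;> cases s a c <;> simp

end Pool.Agent.Helper64.CT
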